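import Pool.Agent.GT.StmtsA

/-!
Row A_PRB of the table `gt`: the density Hales-Jewett theorem for events.
-/

open Finset

namespace Pool.Agent.GT.H7

/-- continuation by a constant letter -/
def ext {α : Type} {n m : ℕ} (x : Fin n → α) (d : α) : Fin m → α :=
  fun i => if h : i.1 < n then x ⟨i.1, h⟩ else d

theorem lp_ext {k n m : ℕ} (w : Fin n → Option (Fin k)) (z a : Fin k) :
    lp (ext (m := m) w (some z)) a = ext (lp w a) z := by
  funext i
  unfold lp ext
  split_ifs <;> rfl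

theorem a_prb : PrbStmt := by
  intro k hk hD δ hδ
  obtain ⟨n₀, hn₀⟩ := hD (δ / 2) (by positivity)
  have hkp : (0 : ℝ) < (k : ℝ) + 1 := by positivity
  have hkr : (0 : ℝ) < (k : ℝ) ^ n₀ := by
    have : (0 : ℝ) < (k : ℝ) := by exact_mod_cast hk
    positivity
  refine ⟨max n₀ 1, (δ / 2) / ((k : ℝ) + 1) ^ n₀, by positivity, ?_⟩
  intro m hm Y _ E hE
  classical
  have hm0 : n₀ ≤ m := le_trans (le_max_left _ _) hm
  have hm1 : 1 ≤ m := le_trans (le_max_right _ _) hm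
  obtain ⟨z⟩ : Nonempty (Fin k) := ⟨⟨0, hk⟩⟩
  rcases Nat.eq_zero_or_pos (Fintype.card Y) with hY | hY
  · refine ⟨fun _ => none, ⟨⟨0, hm1⟩, rfl⟩, ∅, ?_, ?_⟩
    · rw [hY]; simp
    · intro y hy; exact absurd hy (Finset.notMem_empty y)
  have hYr : (0 : ℝ) < Fintype.card Y := by exact_mod_cast hY
  obtain ⟨Bs, hBs⟩ : ∃ Bs : Y → Finset (Fin n₀ → Fin k),
      ∀ y, Bs y = univ.filter (fun t => y ∈ E (ext t z)) := ⟨_, fun _ => rfl⟩
  have hsum : δ * Fintype.card Y * (k : ℝ) ^ n₀ ≤ ∑ y : Y, ((Bs y).card : ℝ) := by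
    have h1 : ∑ y : Y, ((Bs y).card : ℝ) = ∑ t : Fin n₀ → Fin k, ((E (ext t z)).card : ℝ) := by
      have h2 : ∀ y, ((Bs y).card : ℝ) =
          ∑ t : Fin n₀ → Fin k, if y ∈ E (ext t z) then (1 : ℝ) else 0 := by
        intro y
        rw [Finset.sum_boole, hBs]
      have h3 : ∀ t : Fin n₀ → Fin k, ((E (ext (m := m) t z)).card : ℝ) =
          ∑ y : Y, if y ∈ E (ext t z) then (1 : ℝ) else 0 := by
        intro t
        rw [Finset.sum_boole]
        simp
      simp only [h2, h3]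
      exact Finset.sum_comm
    rw [h1]
    calc δ * Fintype.card Y * (k : ℝ) ^ n₀ = ∑ _t : Fin n₀ → Fin k, δ * (Fintype.card Y : ℝ) := by
          rw [Finset.sum_const, Finset.card_univ, Fintype.card_fun, Fintype.card_fin,
            Fintype.card_fin, nsmul_eq_mul]
          push_cast
          ring
      _ ≤ _ := Finset.sum_le_sum fun t _ => hE (ext t z)
  obtain ⟨G, hG⟩ : ∃ G : Finset Y,
      ∀ y, y ∈ G ↔ δ / 2 * (k : ℝ) ^ n₀ ≤ ((Bs y).card : ℝ) :=
    ⟨univ.filter (fun y => δ / 2 * (k : ℝ) ^ n₀ ≤ ((Bs y).card : ℝ)), fun y => by simp⟩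
  have hGc : δ / 2 * Fintype.card Y ≤ (G.card : ℝ) := by
    have h1 : ∀ y : Y, ((Bs y).card : ℝ) ≤
        (if y ∈ G then (k : ℝ) ^ n₀ else 0) + δ / 2 * (k : ℝ) ^ n₀ := by
      intro y
      by_cases hy : y ∈ G
      · rw [if_pos hy]
        have h2 : (Bs y).card ≤ k ^ n₀ := by
          calc (Bs y).card ≤ Fintype.card (Fin n₀ → Fin k) := Finset.card_le_univ _
            _ = k ^ n₀ := by simp
        have h3 : ((Bs y).card : ℝ) ≤ (k : ℝ) ^ n₀ := by exact_mod_cast h2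
        have h4 : 0 ≤ δ / 2 * (k : ℝ) ^ n₀ := by positivity
        linarith
      · rw [if_neg hy, zero_add]
        exact le_of_not_ge fun h => hy ((hG y).2 h)
    have h2 : ∑ y : Y, ((Bs y).card : ℝ) ≤
        (G.card : ℝ) * (k : ℝ) ^ n₀ + Fintype.card Y * (δ / 2 * (k : ℝ) ^ n₀) := by
      calc ∑ y : Y, ((Bs y).card : ℝ) ≤
          ∑ y : Y, ((if y ∈ G then (k : ℝ) ^ n₀ else 0) + δ / 2 * (k : ℝ) ^ n₀) :=
            Finset.sum_le_sum fun y _ => h1 y
        _ = _ := by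
          rw [Finset.sum_add_distrib, Finset.sum_const, Finset.card_univ, nsmul_eq_mul,
            ← Finset.sum_filter, Finset.sum_const, nsmul_eq_mul]
          simp
    have h3 : (δ / 2 * Fintype.card Y) * (k : ℝ) ^ n₀ ≤ (G.card : ℝ) * (k : ℝ) ^ n₀ := by
      nlinarith [hsum, h2]
    exact le_of_mul_le_mul_right h3 hkr
  have hW : ∀ y : Y, ∃ w : Fin n₀ → Option (Fin k),
      y ∈ G → IsLine w ∧ ∀ a, lp w a ∈ Bs y := by
    intro y
    by_cases hy : y ∈ G
    · obtain ⟨w, hw1, hw2⟩ := hn₀ (Fin n₀) (by simp) (Bs y) (by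
        have := (hG y).1 hy
        simpa using this)
      exact ⟨w, fun _ => ⟨hw1, hw2⟩⟩
    · exact ⟨fun _ => none, fun h => absurd h hy⟩
  choose W hW using hW
  have hcard : (Finset.univ : Finset (Fin n₀ → Option (Fin k))).card = (k + 1) ^ n₀ := by
    rw [Finset.card_univ, Fintype.card_fun, Fintype.card_option, Fintype.card_fin,
      Fintype.card_fin]
  obtain ⟨w, _, hw⟩ := Finset.exists_le_card_fiber_of_nsmul_le_card_of_maps_to
    (s := G) (t := (Finset.univ : Finset (Fin n₀ → Option (Fin k)))) (f := W)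
    (b := (δ / 2) / ((k : ℝ) + 1) ^ n₀ * Fintype.card Y)
    (fun _ _ => Finset.mem_univ _) ⟨fun _ => none, Finset.mem_univ _⟩ (by
      rw [hcard, nsmul_eq_mul]
      have h1 : (((k + 1) ^ n₀ : ℕ) : ℝ) * (δ / 2 / ((k : ℝ) + 1) ^ n₀ * Fintype.card Y) =
          δ / 2 * Fintype.card Y := by
        push_cast
        field_simp
      rw [h1]
      exact hGc)
  have hpos : 0 < (δ / 2) / ((k : ℝ) + 1) ^ n₀ * Fintype.card Y := by positivity
  have hne : (G.filter fun y => W y = w).Nonempty := by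
    rw [← Finset.card_pos]
    have : (0 : ℝ) < ((G.filter fun y => W y = w).card : ℝ) := lt_of_lt_of_le hpos hw
    exact_mod_cast this
  obtain ⟨y₀, hy₀⟩ := hne
  rw [Finset.mem_filter] at hy₀
  have hline : IsLine w := by
    have := (hW y₀ hy₀.1).1
    rwa [hy₀.2] at this
  refine ⟨ext w (some z), ?_, G.filter fun y => W y = w, hw, ?_⟩
  · obtain ⟨i, hi⟩ := hline
    refine ⟨⟨i.1, lt_of_lt_of_le i.2 hm0⟩, ?_⟩
    unfold ext
    rw [dif_pos i.2]
    exact hi
  · intro y hy a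
    rw [Finset.mem_filter] at hy
    have h1 := (hW y hy.1).2 a
    rw [hy.2, hBs, Finset.mem_filter] at h1
    rw [lp_ext]
    exact h1.2

end Pool.Agent.GT.H7
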