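import Pool.Agent.GT.StmtsF

/-!
# F_NSQ: a point which is not a double stays not a double
-/

set_option autoImplicit false

namespace Pool.Agent.GT.F.H7

open Polynomial Pool.Agent.NJ

theorem charZero_ratFunc : CharZero (RatFunc ℚ) :=
  charZero_of_injective_algebraMap (R := ℚ[X]) (IsFractionRing.injective ℚ[X] (RatFunc ℚ))

theorem inj_of_dif {e : Fin 3 → RatFunc ℚ} {u : RatFunc ℚ} {δ x y z : ℚ[X]}
    (hD : Dif (e 0) (e 1) (e 2) u δ x y z) : Function.Injective e := by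
  have key : ∀ (p : ℚ[X]), p ≠ 0 → u ^ 2 * algebraMap ℚ[X] (RatFunc ℚ) (δ * p) ≠ 0 := by
    intro p hp
    refine mul_ne_zero (pow_ne_zero 2 hD.u0) ?_
    exact (map_ne_zero_iff _ (IsFractionRing.injective ℚ[X] (RatFunc ℚ))).2
      (mul_ne_zero hD.d0 hp)
  have n12 : e 0 ≠ e 1 := by
    intro h
    have h1 := hD.h12
    rw [h, sub_self] at h1
    exact key x hD.x0 h1.symm
  have n23 : e 1 ≠ e 2 := by
    intro h
    have h1 := hD.h23
    rw [h, sub_self] at h1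
    exact key y hD.y0 h1.symm
  have n31 : e 2 ≠ e 0 := by
    intro h
    have h1 := hD.h31
    rw [h, sub_self] at h1
    exact key z hD.z0 h1.symm
  intro i j hij
  fin_cases i <;> fin_cases j
  · rfl
  · exact absurd hij n12
  · exact absurd hij.symm n31
  · exact absurd hij.symm n12
  · rfl
  · exact absurd hij n23
  · exact absurd hij n31
  · exact absurd hij.symm n23
  · rfl

theorem val_large {k : ℚ} {p : ℕ} (hp : p.Prime) (h : k.num.natAbs + k.den < p) (hk : k ≠ 0) :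
    padicValRat p k = 0 := by
  rw [padicValRat_def]
  have h1 : ¬ p ∣ k.num.natAbs := by
    intro hd
    have h2 := Nat.le_of_dvd (Int.natAbs_pos.2 (Rat.num_ne_zero.2 hk)) hd
    omega
  have h3 : ¬ p ∣ k.den := by
    intro hd
    have h2 := Nat.le_of_dvd k.pos hd
    omega
  have e1 : padicValInt p k.num = 0 := padicValNat.eq_zero_of_not_dvd h1
  have e2 : padicValNat p k.den = 0 := padicValNat.eq_zero_of_not_dvd h3
  rw [e1, e2]
  simp

theorem val_prod {p : ℕ} [Fact p.Prime] (f : ℚ → ℚ) : ∀ (R : Finset ℚ), (∀ c ∈ R, f c ≠ 0) →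
    padicValRat p (∏ c ∈ R, f c) = ∑ c ∈ R, padicValRat p (f c) := by
  intro R
  induction R using Finset.induction_on with
  | empty => intro _; simp
  | insert a R ha ih =>
    intro h
    rw [Finset.prod_insert ha, Finset.sum_insert ha, padicValRat.mul (h a (by simp))
      (Finset.prod_ne_zero_iff.2 fun c hc => h c (by simp [hc])), ih fun c hc => h c (by simp [hc])]

theorem f_nsq (hBas : BasStmt) (hAdd : AddStmt) (hKer : KerStmt) (hEvl : EvlStmt)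
    (hRoo : RooStmt) (hCls : ClsStmt) : NsqStmt := by
  intro _ _ E e u δ x y z B hΔ hR hD hRB hB P hP
  have _ := charZero_ratFunc
  have hinj := inj_of_dif hD
  obtain ⟨i, hi⟩ : ∃ i, ¬ Dl (gen E) e i 1 P := by
    by_contra hcon
    push Not at hcon
    exact hP (hKer (RatFunc ℚ) (gen E) e hR hinj P hcon)
  obtain ⟨k, R, hk, hRB', hDl⟩ := hCls E e u δ x y z B hΔ hR hD hRB hB i P
  set p : ℚ[X] := C k * ∏ c ∈ R, (X - C c) with hp
  have hp0 : p ≠ 0 := by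
    rw [hp]
    exact mul_ne_zero (C_ne_zero.2 hk) (Finset.prod_ne_zero_iff.2 fun c _ => X_sub_C_ne_zero c)
  have hf0 : algebraMap ℚ[X] (RatFunc ℚ) p ≠ 0 :=
    (map_ne_zero_iff _ (IsFractionRing.injective ℚ[X] (RatFunc ℚ))).2 hp0
  obtain ⟨-, hb2, -, -⟩ := hBas (RatFunc ℚ) (gen E) e hR hinj
  have hnsq : ¬ IsSquare (algebraMap ℚ[X] (RatFunc ℚ) p) := by
    intro h
    exact hi ((hb2 i _ 1 P hf0 one_ne_zero hDl).2 (by rwa [mul_one]))
  obtain ⟨hE1, hE2, -, hE4⟩ := hEvl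
  rcases P with _ | ⟨X₀, Y₀, hXY⟩
  · exact absurd ⟨0, (add_zero 0).symm⟩ hP
  obtain ⟨hD1, hD2⟩ := hDl
  -- the function w
  obtain ⟨w, hw0, hwsq, hwev⟩ : ∃ w : RatFunc ℚ, w ≠ 0 ∧
      IsSquare (algebraMap ℚ[X] (RatFunc ℚ) p * w) ∧
      ∀ t : ℚ, X₀.denom.eval t ≠ 0 → (∀ i, (e i).denom.eval t ≠ 0) → ev t w ≠ 0 →
        Function.Injective (fun i => ev t (e i)) →
        ∀ c : ℚ, IsSquare (c * ev t w) →
          (ev t X₀ ≠ ev t (e i) → IsSquare (c * (ev t X₀ - ev t (e i)))) ∧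
          (ev t X₀ = ev t (e i) → IsSquare (c * ((ev t (e i) - ev t (e (i + 1))) *
            (ev t (e i) - ev t (e (i + 2)))))) := by
    by_cases hX : X₀ = e i
    · refine ⟨(e i - e (i + 1)) * (e i - e (i + 2)), ?_, hD2 hX, ?_⟩
      · refine mul_ne_zero (sub_ne_zero.2 ?_) (sub_ne_zero.2 ?_)
        · intro h
          have := hinj h
          fin_cases i <;> simp at this
        · intro h
          have := hinj h
          fin_cases i <;> simp at this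
      · intro t h1 h2 h3 h4 c hc
        refine ⟨fun h => absurd (by rw [hX]) h, fun _ => ?_⟩
        obtain ⟨-, -, ha, ha', -⟩ := hE1 t (e i) (e (i + 1)) (h2 _) (h2 _)
        obtain ⟨-, -, hb, hb', -⟩ := hE1 t (e i) (e (i + 2)) (h2 _) (h2 _)
        obtain ⟨-, -, -, -, hc1, hc2⟩ := hE1 t (e i - e (i + 1)) (e i - e (i + 2)) ha hb
        rw [hc2, ha', hb'] at hc
        exact hc
    · refine ⟨X₀ - e i, sub_ne_zero.2 hX, hD1 hX, ?_⟩
      intro t h1 h2 h3 h4 c hc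
      obtain ⟨-, -, ha, ha', -⟩ := hE1 t X₀ (e i) h1 (h2 _)
      rw [ha'] at hc h3
      exact ⟨fun _ => hc, fun h => absurd h (sub_ne_zero.1 h3)⟩
  obtain ⟨g, hg⟩ := hwsq
  obtain ⟨Z1, hZ1⟩ := hRoo E e hΔ hR hinj
  obtain ⟨Z2, hZ2⟩ := hE4 X₀
  obtain ⟨Z3, hZ3⟩ := hE4 w
  obtain ⟨Z4, hZ4⟩ := hE4 g
  refine ⟨k.num.natAbs + k.den, Z1 ∪ Z2 ∪ Z3 ∪ Z4 ∪ B, ?_⟩
  intro t ht hsep sp hsp
  simp only [Finset.mem_union, not_or] at ht
  obtain ⟨⟨⟨⟨ht1, ht2⟩, ht3⟩, ht4⟩, htB⟩ := ht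
  obtain ⟨-, hd, hRt, hinjt⟩ := hZ1 t ht1
  obtain ⟨hX1, -⟩ := hZ2 t ht2
  obtain ⟨hw1, hw2⟩ := hZ3 t ht3
  obtain ⟨hg1, -⟩ := hZ4 t ht4
  obtain ⟨h', hsp1⟩ := hsp.1 X₀ Y₀ hXY hX1
  rintro ⟨Q, hQ⟩
  have hpt : p.eval t = k * ∏ c ∈ R, (t - c) := by
    rw [hp, eval_mul, eval_C, eval_prod]
    simp
  have htR : ∀ c ∈ R, t - c ≠ 0 := by
    intro c hc h
    exact htB (sub_eq_zero.1 h ▸ hRB' hc)
  have hpt0 : p.eval t ≠ 0 := by
    rw [hpt]
    exact mul_ne_zero hk (Finset.prod_ne_zero_iff.2 htR)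
  have hsq : IsSquare (p.eval t * ev t w) := by
    obtain ⟨-, -, -, -, h1, h2⟩ := hE1 t g g hg1 hg1
    obtain ⟨h3, h4⟩ := hE2 t p
    obtain ⟨-, -, -, -, h5, h6⟩ := hE1 t _ w h3 hw1
    refine ⟨ev t g, ?_⟩
    rw [← h2, ← hg, h6, h4]
  have hDt : Dl (fib E t) (fun j => ev t (e j)) i (p.eval t) (sp (.some X₀ Y₀ hXY)) := by
    rw [hsp1]
    exact hwev t hX1 hd (hw2 hw0) hinjt _ hsq
  obtain ⟨hc1, hc2, -, -⟩ := hBas ℚ (fib E t) (fun j => ev t (e j)) hRt hinjt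
  obtain ⟨c, hc0, hc⟩ := hc1 i Q
  have hQQ := hAdd ℚ (fib E t) (fun j => ev t (e j)) hRt hinjt i c c Q Q hc0 hc0 hc hc
  have hsp2 : sp (.some X₀ Y₀ hXY) = Q + Q := hQ
  rw [hsp2] at hDt
  have hs1 := (hc2 i (c * c) (p.eval t) (Q + Q) (mul_ne_zero hc0 hc0) hpt0 hQQ).1 hDt
  have hs2 : IsSquare (p.eval t) := by
    obtain ⟨r, hr⟩ := hs1
    refine ⟨r / c, ?_⟩
    field_simp
    linear_combination hr
  rcases R.eq_empty_or_nonempty with hRe | ⟨c₀, hc₀⟩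
  · apply hnsq
    rw [hpt, hRe, Finset.prod_empty, mul_one] at hs2
    obtain ⟨r, hr⟩ := hs2
    refine ⟨algebraMap ℚ[X] (RatFunc ℚ) (C r), ?_⟩
    rw [hp, hRe, Finset.prod_empty, mul_one, ← map_mul, ← C_mul, hr]
  · obtain ⟨q, hq, hqn, hodd, hoth⟩ := hsep c₀ (hRB' hc₀)
    have hF : Fact q.Prime := ⟨hq⟩
    have hv : padicValRat q (p.eval t) = padicValRat q (t - c₀) := by
      rw [hpt, padicValRat.mul hk (Finset.prod_ne_zero_iff.2 htR), val_large hq hqn hk,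
        val_prod (fun c => t - c) R htR, zero_add,
        Finset.sum_eq_single_of_mem c₀ hc₀ fun c hc hne => hoth c (hRB' hc) hne]
    obtain ⟨r, hr⟩ := hs2
    have hr0 : r ≠ 0 := by
      rintro rfl
      rw [mul_zero] at hr
      exact hpt0 hr
    rw [hr, padicValRat.mul hr0 hr0] at hv
    rw [← hv] at hodd
    exact (Int.not_odd_iff_even.2 ⟨_, rfl⟩) hodd

end Pool.Agent.GT.F.H7
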